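import Pool.Agent.Q270.EN.Stm5
import Pool.Agent.Q259.RM.Asy3

/-! # Project EL (helper270): sums of products of von Mangoldt values (helper177) -/

set_option autoImplicit false
set_option linter.all false

namespace Pool.Agent.Q177.EL

open Finset Filter Topology
open Pool.Agent.Q270.EN Pool.Agent.Q259.RM

/-- leading coefficients of the forms of `T` -/
noncomputable def aT (T : Finset (ℕ × ℕ)) : Fin T.card → ℤ := fun i => ((T.equivFin.symm i).1.1 : ℤ)

/-- constant coefficients of the forms of `T` -/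
noncomputable def bT (T : Finset (ℕ × ℕ)) : Fin T.card → ℤ := fun i => ((T.equivFin.symm i).1.2 : ℤ)

theorem prodT (T : Finset (ℕ × ℕ)) (g : ℕ × ℕ → ℝ) :
    ∏ q ∈ T, g q = ∏ i : Fin T.card, g (T.equivFin.symm i).1 := by
  rw [← prod_coe_sort]
  exact (Fintype.prod_equiv T.equivFin.symm _ _ fun i => rfl).symm

theorem vT_eq (T : Finset (ℕ × ℕ)) (n : ℕ) : vT T n = vL (aT T) (bT T) n := by
  unfold vT vL
  rw [prodT]
  refine prod_congr rfl fun i _ => ?_
  unfold aT bT
  congr 1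

theorem vT_prog (T : Finset (ℕ × ℕ)) (m r i : ℕ) :
    vT T (m * i + r) = vL (fun j => aT T j * m) (fun j => aT T j * r + bT T j) i := by
  rw [vT_eq]
  unfold vL
  refine prod_congr rfl fun j _ => ?_
  congr 2
  push_cast
  ring

theorem vT_nonneg (T : Finset (ℕ × ℕ)) (n : ℕ) : 0 ≤ vT T n := by
  rw [vT_eq]
  exact vL_nonneg _ _ _

theorem adm_mem {A : ℕ} {T : Finset (ℕ × ℕ)} (hT : T = ∅ ∨ Adm A A T) (i : Fin T.card) :
    1 ≤ aT T i ∧ aT T i ≤ A ∧ 0 ≤ bT T i ∧ bT T i ≤ A := by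
  rcases hT with rfl | hT
  · exact absurd i.2 (by simp)
  · have h := hT.2.1 _ (T.equivFin.symm i).2
    unfold aT bT
    refine ⟨?_, ?_, ?_, ?_⟩
    · exact_mod_cast h.1
    · exact_mod_cast h.2.1
    · exact Int.natCast_nonneg _
    · exact_mod_cast h.2.2

theorem adm_det {A : ℕ} {T : Finset (ℕ × ℕ)} (hT : T = ∅ ∨ Adm A A T) {i j : Fin T.card}
    (hij : i ≠ j) : aT T i * bT T j - aT T j * bT T i ≠ 0 := by
  rcases hT with rfl | hT
  · exact absurd i.2 (by simp)
  · have hne : (T.equivFin.symm i).1 ≠ (T.equivFin.symm j).1 := by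
      intro h
      exact hij (T.equivFin.symm.injective (Subtype.ext h))
    have h := hT.2.2 _ (T.equivFin.symm i).2 _ (T.equivFin.symm j).2 hne
    intro h0
    apply h
    unfold aT bT at h0
    have : ((T.equivFin.symm i).1.1 * (T.equivFin.symm j).1.2 : ℤ) =
        (T.equivFin.symm j).1.1 * (T.equivFin.symm i).1.2 := by linarith
    exact_mod_cast this

theorem disc_ne {k : ℕ} {a b : Fin k → ℤ} (ha : ∀ i, a i ≠ 0)
    (hab : ∀ i j, i ≠ j → a i * b j - a j * b i ≠ 0) : disc a b ≠ 0 := by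
  unfold disc
  refine mul_ne_zero (prod_ne_zero_iff.2 fun i _ => ha i) (prod_ne_zero_iff.2 fun i _ =>
    prod_ne_zero_iff.2 fun j hj => hab i j ?_)
  exact (mem_filter.1 hj).2.ne

theorem disc_prog {k : ℕ} (a b : Fin k → ℤ) (m r : ℤ) : ∃ s : ℕ,
    disc (fun j => a j * m) (fun j => a j * r + b j) = m ^ s * disc a b := by
  unfold disc
  refine ⟨k + ∑ i : Fin k, (univ.filter (fun j => i < j)).card, ?_⟩
  have h1 : ∏ i : Fin k, a i * m = m ^ k * ∏ i, a i := by
    rw [prod_mul_distrib, prod_const, card_univ, Fintype.card_fin, mul_comm]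
  have h2 : ∏ i : Fin k, ∏ j ∈ univ.filter (fun j => i < j),
      (a i * m * (a j * r + b j) - a j * m * (a i * r + b i)) =
      m ^ (∑ i : Fin k, (univ.filter (fun j => i < j)).card) *
        ∏ i : Fin k, ∏ j ∈ univ.filter (fun j => i < j), (a i * b j - a j * b i) := by
    rw [← prod_pow_eq_pow_sum, ← prod_mul_distrib]
    refine prod_congr rfl fun i _ => ?_
    rw [← prod_const, ← prod_mul_distrib]
    refine prod_congr rfl fun j _ => ?_
    ring
  rw [h1, h2, pow_add]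
  ring

theorem AF_mul_le (U D : ℤ) (hU : U ≠ 0) (hD : D ≠ 0) : AF (U * D) ≤ AF U * AF D := by
  unfold AF
  rw [Int.natAbs_mul]
  have hU' : 0 < U.natAbs := Int.natAbs_pos.2 hU
  have hD' : 0 < D.natAbs := Int.natAbs_pos.2 hD
  have h1 := Nat.totient_super_multiplicative U.natAbs D.natAbs
  have h2 : 0 < U.natAbs.totient := Nat.totient_pos.2 hU'
  have h3 : 0 < D.natAbs.totient := Nat.totient_pos.2 hD'
  rw [div_mul_div_comm]
  push_cast
  apply div_le_div_of_nonneg_left (by positivity)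
  · exact_mod_cast Nat.mul_pos h2 h3
  · exact_mod_cast h1

theorem AF_ppow {p : ℕ} (hp : p.Prime) (j s : ℕ) : AF (((p ^ j : ℕ) : ℤ) ^ s) ≤ 2 := by
  unfold AF
  have e : (((p ^ j : ℕ) : ℤ) ^ s).natAbs = p ^ (j * s) := by
    rw [← Nat.cast_pow, Int.natAbs_natCast, pow_mul]
  rw [e]
  rcases Nat.eq_zero_or_pos (j * s) with h | h
  · rw [h]
    simp
  · rw [Nat.totient_prime_pow hp h]
    have hp2 := hp.two_le
    have hp0 : 0 < p := hp.pos
    have h1 : 0 < p ^ (j * s - 1) * (p - 1) := Nat.mul_pos (pow_pos hp0 _) (by omega)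
    rw [div_le_iff₀ (by exact_mod_cast h1)]
    have h2 : p ^ (j * s) ≤ 2 * (p ^ (j * s - 1) * (p - 1)) := by
      obtain ⟨t, ht⟩ : ∃ t, j * s = t + 1 := ⟨j * s - 1, by omega⟩
      rw [ht, Nat.add_sub_cancel, pow_succ]
      have : p ≤ 2 * (p - 1) := by omega
      calc p ^ t * p ≤ p ^ t * (2 * (p - 1)) := Nat.mul_le_mul_left _ this
        _ = 2 * (p ^ t * (p - 1)) := by ring
    exact_mod_cast h2

/-- the mean value without signs -/
theorem MA (k A : ℕ) (hA : 2 ≤ A) : ∃ C : ℝ, 0 < C ∧ ∀ᶠ N : ℕ in atTop, ∀ a b : Fin k → ℤ,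
    (∀ i, 0 < a i ∧ a i ≤ (N : ℤ) ^ A ∧ 0 ≤ b i ∧ b i ≤ (N : ℤ) ^ A) → disc a b ≠ 0 →
    ∑ n ∈ Icc 1 N, vL a b n ≤ C * N * AF (disc a b) ^ k := by
  obtain ⟨C, hC, hM⟩ := mean_asy k A (k + 2 * A + 2) hA le_rfl (fun _ => 0)
    (fun _ => ⟨le_rfl, zero_le_one⟩) (fun N => Real.log N) (Eventually.of_forall fun _ => le_rfl)
  have hH := H_props (R := fun N : ℕ => Real.log N) (Eventually.of_forall fun _ => le_rfl) A hA
  refine ⟨C, hC, ?_⟩
  filter_upwards [hM, hH, ev_log 1] with N hN hH hL a b hab hD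
  have hH1 : (1 : ℤ) ≤ (HN (fun N : ℕ => Real.log N) A N : ℤ) := by exact_mod_cast hH.1
  have h := hN 1 N a b (fun _ => 1) (fun _ => -1) 0 (vL a b) le_rfl
    (by
      rw [Nat.cast_one]
      exact one_le_pow₀ hL)
    (fun i => ⟨(hab i).1.ne', by rw [abs_of_pos (hab i).1]; exact (hab i).2.1,
      by rw [abs_of_nonneg (hab i).2.2.1]; exact (hab i).2.2.2⟩)
    (fun j => ⟨one_ne_zero, by rw [abs_one]; exact hH1, by rw [abs_neg, abs_one]; exact hH1⟩)
    (by
      unfold RR
      refine mul_ne_zero (mul_ne_zero hD ?_) ?_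
      · have : univ.erase (0 : Fin 1) = ∅ := by decide
        rw [this, prod_empty]
        exact one_ne_zero
      · refine prod_ne_zero_iff.2 fun i _ => ?_
        have := hab i
        have h1 := this.1
        have h2 := this.2.2.1
        intro h0
        linarith)
    (fun n _ => le_of_eq (abs_of_nonneg (vL_nonneg _ _ _)))
  simp only [zero_mul, sub_zero, mul_one, zero_add, prod_const_one, Pool.Agent.Q259.RM.dl, mul_zero, abs_one,
    sub_self, zero_div, sum_const_zero, neg_zero, Real.exp_zero] at h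
  exact (le_abs_self _).trans h

end Pool.Agent.Q177.EL
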