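import Pool.Agent.Q177.EL.Base

/-! # Project EL (helper270), job CLS (helper177) -/

set_option autoImplicit false
set_option linter.all false

namespace Pool.Agent.Q177.EL

open Finset Filter Topology
open Pool.Agent.Q270.EN Pool.Agent.Q259.RM

theorem ev_logpow (k : ℕ) (K δ : ℝ) (hδ : 0 < δ) :
    ∀ᶠ N : ℕ in atTop, Real.log (K * N) ^ k ≤ (N : ℝ) ^ δ ∧ 0 ≤ Real.log (K * N) ∨ K < 1 := by
  by_cases hK : K < 1
  · exact Eventually.of_forall fun _ => Or.inr hK
  push Not at hK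
  have hK0 : 0 < K := by linarith
  have h := isLittleO_log_rpow_rpow_atTop (k : ℝ) hδ
  have h2 := h.def (show (0 : ℝ) < 1 / 2 ^ k by positivity)
  have h3 := tendsto_natCast_atTop_atTop (R := ℝ) |>.eventually h2
  filter_upwards [h3, eventually_ge_atTop 1, eventually_ge_atTop ⌈K⌉₊] with N hN hN1 hNK
  left
  have hNp : (0 : ℝ) < N := by exact_mod_cast hN1
  have hL : 0 ≤ Real.log N := Real.log_nonneg (by exact_mod_cast hN1)
  have hKN : K ≤ N := (Nat.le_ceil K).trans (by exact_mod_cast hNK)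
  rw [Real.rpow_natCast, Real.norm_eq_abs, Real.norm_eq_abs, abs_of_nonneg (pow_nonneg hL k),
    abs_of_nonneg (Real.rpow_nonneg hNp.le δ)] at hN
  have h4 : Real.log (K * N) ≤ 2 * Real.log N := by
    rw [Real.log_mul hK0.ne' hNp.ne']
    have := Real.log_le_log hK0 hKN
    linarith
  have h5 : 0 ≤ Real.log (K * N) := by
    apply Real.log_nonneg
    have : (1 : ℝ) ≤ N := by exact_mod_cast hN1
    nlinarith
  refine ⟨?_, h5⟩
  calc Real.log (K * N) ^ k ≤ (2 * Real.log N) ^ k := pow_le_pow_left₀ h5 h4 k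
    _ = 2 ^ k * Real.log N ^ k := mul_pow _ _ _
    _ ≤ 2 ^ k * (1 / 2 ^ k * (N : ℝ) ^ δ) := by
      apply mul_le_mul_of_nonneg_left _ (by positivity)
      exact hN
    _ = (N : ℝ) ^ δ := by field_simp

theorem sum_split (T : Finset (ℕ × ℕ)) (N m r : ℕ) (hm : 0 < m) :
    ∑ n ∈ (Icc 1 N).filter (fun n => n % m = r % m), vT T n ≤
      vT T (r % m) + ∑ i ∈ Icc 1 (N / m), vT T (m * i + r % m) := by
  have h1 : (Icc 1 N).filter (fun n => n % m = r % m) ⊆
      insert (r % m) ((Icc 1 (N / m)).image (fun i => m * i + r % m)) := by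
    intro n hn
    rw [mem_filter, mem_Icc] at hn
    rw [mem_insert, mem_image]
    have h2 := Nat.div_add_mod n m
    rcases Nat.eq_zero_or_pos (n / m) with h0 | h0
    · left
      rw [h0, mul_zero, zero_add] at h2
      rw [← hn.2]
      exact h2.symm
    · right
      refine ⟨n / m, mem_Icc.2 ⟨h0, Nat.div_le_div_right hn.1.2⟩, ?_⟩
      rw [← hn.2]
      exact h2
  have h3 : ∑ n ∈ (Icc 1 N).filter (fun n => n % m = r % m), vT T n ≤
      ∑ n ∈ insert (r % m) ((Icc 1 (N / m)).image (fun i => m * i + r % m)), vT T n :=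
    sum_le_sum_of_subset_of_nonneg h1 fun n _ _ => vT_nonneg T n
  have h4 : ∑ n ∈ insert (r % m) ((Icc 1 (N / m)).image (fun i => m * i + r % m)), vT T n ≤
      vT T (r % m) + ∑ n ∈ (Icc 1 (N / m)).image (fun i => m * i + r % m), vT T n := by
    by_cases h : r % m ∈ (Icc 1 (N / m)).image (fun i => m * i + r % m)
    · rw [insert_eq_of_mem h]
      have := vT_nonneg T (r % m)
      linarith
    · rw [sum_insert h]
  have h5 : ∑ n ∈ (Icc 1 (N / m)).image (fun i => m * i + r % m), vT T n =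
      ∑ i ∈ Icc 1 (N / m), vT T (m * i + r % m) := by
    rw [sum_image]
    intro i _ i' _ h
    have h' : m * i = m * i' := by
      have : m * i + r % m = m * i' + r % m := h
      omega
    exact Nat.eq_of_mul_eq_mul_left hm h'
  linarith

theorem t_CLS : S_CLS := by
  intro A T hT δ hδ0 hδ1
  set k := T.card with hk
  set e := ⌈1 / δ⌉₊ with he
  obtain ⟨C₁, hC₁, hMA⟩ := MA k (2 * e + 2) (by omega)
  obtain ⟨N₁, hN₁⟩ := eventually_atTop.1 hMA
  have ha : ∀ i, aT T i ≠ 0 := fun i => by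
    have := (adm_mem hT i).1
    omega
  have hD0 : disc (aT T) (bT T) ≠ 0 := disc_ne ha fun i j hij => adm_det hT hij
  set D := AF (disc (aT T) (bT T)) with hD
  have hD1 : 1 ≤ D := AF_one hD0
  refine ⟨1 + C₁ * (2 * D) ^ k, by positivity, ?_⟩
  have hpow : Tendsto (fun N : ℕ => (N : ℝ) ^ δ) atTop atTop :=
    (tendsto_rpow_atTop hδ0).comp tendsto_natCast_atTop_atTop
  filter_upwards [ev_logpow k (2 * (A + 1)) δ hδ0, eventually_ge_atTop 1,
    hpow.eventually_ge_atTop ((N₁ : ℝ) + 2 * A + 8)] with N hlog hN1 hNδ p j r hp hj1 hj2 hpj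
  have hNp : (0 : ℝ) < N := by exact_mod_cast hN1
  have hlog' := hlog.resolve_right (by
    have : (0 : ℝ) ≤ A := Nat.cast_nonneg A
    intro h
    linarith)
  set m := p ^ j with hm
  have hm0 : 0 < m := pow_pos hp.pos j
  have hmr : (0 : ℝ) < m := by exact_mod_cast hm0
  -- `N / m` is large
  have hNm : (N : ℝ) ^ δ ≤ N / m := by
    rw [le_div_iff₀ hmr]
    calc (N : ℝ) ^ δ * m ≤ (N : ℝ) ^ δ * (N : ℝ) ^ (1 - δ) :=
          mul_le_mul_of_nonneg_left hpj (Real.rpow_nonneg hNp.le _)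
      _ = N := by rw [← Real.rpow_add hNp]; norm_num
  have hM1 : (N : ℝ) / m - 1 < ((N / m : ℕ) : ℝ) := by
    rw [← Nat.floor_div_eq_div (K := ℝ)]
    exact Nat.sub_one_lt_floor _
  have hM2 : ((N / m : ℕ) : ℝ) ≤ N / m := Nat.cast_div_le
  set M := N / m with hMd
  have hA0 : (0 : ℝ) ≤ A := Nat.cast_nonneg A
  have hN₁0 : (0 : ℝ) ≤ N₁ := Nat.cast_nonneg N₁
  have hMbig : (N₁ : ℝ) + 2 * A + 7 ≤ M := by linarith
  have hMN₁ : N₁ ≤ M := by
    have : (N₁ : ℝ) ≤ M := by linarith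
    exact_mod_cast this
  have hMA2 : 2 * (A + 1) ≤ M := by
    have : (2 * ((A : ℝ) + 1)) ≤ M := by linarith
    exact_mod_cast this
  have hM2' : 2 ≤ M := by omega
  -- `N` is at most a power of `M`
  have hNM : N ≤ M ^ (2 * e) := by
    have h1 : (N : ℝ) ^ δ ≤ (M : ℝ) ^ 2 := by
      have h2 : (N : ℝ) ^ δ ≤ M + 1 := by linarith
      have h3 : (2 : ℝ) ≤ M := by exact_mod_cast hM2'
      nlinarith
    have h2 : (N : ℝ) = ((N : ℝ) ^ δ) ^ (1 / δ) := by
      rw [← Real.rpow_mul hNp.le, mul_one_div, div_self hδ0.ne', Real.rpow_one]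
    have h3 : (N : ℝ) ≤ (M : ℝ) ^ (2 * e) := by
      rw [h2]
      have h4 : (1 : ℝ) ≤ (N : ℝ) ^ δ := by linarith
      calc ((N : ℝ) ^ δ) ^ (1 / δ) ≤ ((N : ℝ) ^ δ) ^ (e : ℝ) :=
            Real.rpow_le_rpow_of_exponent_le h4 (Nat.le_ceil _)
        _ = ((N : ℝ) ^ δ) ^ e := Real.rpow_natCast _ _
        _ ≤ ((M : ℝ) ^ 2) ^ e := pow_le_pow_left₀ (by positivity) h1 e
        _ = (M : ℝ) ^ (2 * e) := by rw [pow_mul]
    exact_mod_cast h3
  have hcoef : 2 * (A + 1) * N ≤ M ^ (2 * e + 2) := by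
    calc 2 * (A + 1) * N ≤ M * M ^ (2 * e) := Nat.mul_le_mul hMA2 hNM
      _ = M ^ (2 * e + 1) := by ring
      _ ≤ M ^ (2 * e + 2) := Nat.pow_le_pow_right (by omega) (by omega)
  have hmN : m ≤ N := by
    have h1 : (m : ℝ) ≤ N := by
      calc (m : ℝ) ≤ (N : ℝ) ^ (1 - δ) := hpj
        _ ≤ (N : ℝ) ^ (1 : ℝ) := Real.rpow_le_rpow_of_exponent_le (by exact_mod_cast hN1)
            (by linarith)
        _ = N := Real.rpow_one _
    exact_mod_cast h1
  set r' := r % m with hr'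
  have hr'm : r' < m := Nat.mod_lt _ hm0
  -- the first term
  have hfirst : vT T r' ≤ N / m := by
    rw [vT_eq]
    have hV : ∀ i, (aT T i * r' + bT T i).natAbs ≤ 2 * (A + 1) * N := by
      intro i
      obtain ⟨h1, h2, h3, h4⟩ := adm_mem hT i
      have h5 : ((aT T i * r' + bT T i).natAbs : ℤ) ≤ ((2 * (A + 1) * N : ℕ) : ℤ) := by
        rw [Int.natCast_natAbs, abs_of_nonneg (by positivity)]
        push_cast
        have h6 : (r' : ℤ) ≤ N := by exact_mod_cast (by omega : r' ≤ N)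
        have h7 : (1 : ℤ) ≤ N := by exact_mod_cast hN1
        have h8 : (0 : ℤ) ≤ r' := Int.natCast_nonneg _
        have h9 : (0 : ℤ) ≤ A := Int.natCast_nonneg _
        nlinarith [mul_le_mul h2 h6 h8 h9]
      exact_mod_cast h5
    have h1 := vL_le (V := 2 * (A + 1) * N) (by nlinarith) hV
    have e1 : ((2 * (A + 1) * N : ℕ) : ℝ) = 2 * (A + 1) * N := by push_cast; ring
    rw [e1] at h1
    exact h1.trans (hlog'.1.trans hNm)
  -- the other terms
  have hrest : ∑ i ∈ Icc 1 M, vT T (m * i + r') ≤ C₁ * (2 * D) ^ k * (N / m) := by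
    simp only [vT_prog]
    obtain ⟨s, hs⟩ := disc_prog (aT T) (bT T) (m : ℤ) (r' : ℤ)
    have hm0' : ((m : ℤ)) ^ s ≠ 0 := pow_ne_zero _ (by exact_mod_cast hm0.ne')
    have h1 := hN₁ M hMN₁ (fun j => aT T j * m) (fun j => aT T j * r' + bT T j) (by
      intro i
      obtain ⟨h1, h2, h3, h4⟩ := adm_mem hT i
      have h5 : (2 * ((A : ℤ) + 1) * N) ≤ (M : ℤ) ^ (2 * e + 2) := by exact_mod_cast hcoef
      have h6 : (r' : ℤ) ≤ N := by exact_mod_cast (by omega : r' ≤ N)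
      have h6' : (m : ℤ) ≤ N := by exact_mod_cast hmN
      have h6'' : (0 : ℤ) < m := by exact_mod_cast hm0
      have h7 : (1 : ℤ) ≤ N := by exact_mod_cast hN1
      have h8 : (0 : ℤ) ≤ r' := Int.natCast_nonneg _
      have h9 : (0 : ℤ) ≤ A := Int.natCast_nonneg _
      refine ⟨by positivity, ?_, by positivity, ?_⟩
      · show aT T i * m ≤ _
        nlinarith [mul_le_mul h2 h6' h6''.le h9]
      · show aT T i * r' + bT T i ≤ _
        nlinarith [mul_le_mul h2 h6 h8 h9]) (by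
      rw [hs]
      exact mul_ne_zero hm0' hD0)
    rw [hs] at h1
    have h2 : AF ((m : ℤ) ^ s * disc (aT T) (bT T)) ≤ 2 * D := by
      refine (AF_mul_le _ _ hm0' hD0).trans ?_
      exact mul_le_mul_of_nonneg_right (AF_ppow hp j s) (by linarith)
    have h3 : 0 ≤ AF ((m : ℤ) ^ s * disc (aT T) (bT T)) := by
      unfold AF
      positivity
    calc _ ≤ C₁ * M * AF ((m : ℤ) ^ s * disc (aT T) (bT T)) ^ k := h1
      _ ≤ C₁ * M * (2 * D) ^ k :=
        mul_le_mul_of_nonneg_left (pow_le_pow_left₀ h3 h2 k) (by positivity)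
      _ ≤ C₁ * (N / m) * (2 * D) ^ k := by gcongr
      _ = C₁ * (2 * D) ^ k * (N / m) := by ring
  have h := sum_split T N m r hm0
  calc ∑ n ∈ (Icc 1 N).filter (fun n => n % m = r % m), vT T n ≤
      vT T r' + ∑ i ∈ Icc 1 M, vT T (m * i + r') := h
    _ ≤ N / m + C₁ * (2 * D) ^ k * (N / m) := add_le_add hfirst hrest
    _ = (1 + C₁ * (2 * D) ^ k) * N / m := by ring

end Pool.Agent.Q177.EL
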