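import Pool.Agent.Q177.EL.CLS

/-! # Project EL (helper270), job EVN (helper177) -/

set_option autoImplicit false
set_option linter.all false

namespace Pool.Agent.Q177.EL

open Finset Filter Topology
open Pool.Agent.Q270.EN Pool.Agent.Q259.RM

/-- sums over the multiples of squares of primes -/
theorem partB (hCLS : S_CLS) (A : ℕ) (T : Finset (ℕ × ℕ)) (hT : T = ∅ ∨ Adm A A T) (c d : ℕ)
    (hc : 1 ≤ c) : ∃ C : ℝ, 0 < C ∧ ∀ᶠ N : ℕ in atTop, ∀ (y : ℕ) (Q : Finset ℕ), 0 < y →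
      (∀ p ∈ Q, p.Prime ∧ y < p ∧ c < p ∧ (p : ℝ) ≤ (N : ℝ) ^ ((1 : ℝ) / 4)) →
      ∑ p ∈ Q, ∑ n ∈ (Icc 1 N).filter (fun n => p ^ 2 ∣ c * n + d), vT T n ≤ C * N * (1 / y) := by
  obtain ⟨C, hC, hN⟩ := hCLS A T hT (1 / 2) (by norm_num) (by norm_num)
  refine ⟨C, hC, ?_⟩
  filter_upwards [hN, eventually_ge_atTop 1] with N hN hN1 y Q hy hQ
  have hNp : (0 : ℝ) < N := by exact_mod_cast hN1
  have h1 : ∀ p ∈ Q, ∑ n ∈ (Icc 1 N).filter (fun n => p ^ 2 ∣ c * n + d), vT T n ≤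
      C * N * (1 / (p : ℝ) ^ 2) := by
    intro p hp
    obtain ⟨hpp, hyp, hcp, hpN⟩ := hQ p hp
    have hpN2 : ((p ^ 2 : ℕ) : ℝ) ≤ (N : ℝ) ^ (1 - 1 / 2 : ℝ) := by
      push_cast
      calc (p : ℝ) ^ 2 ≤ ((N : ℝ) ^ ((1 : ℝ) / 4)) ^ 2 :=
            pow_le_pow_left₀ (Nat.cast_nonneg _) hpN 2
        _ = (N : ℝ) ^ (1 - 1 / 2 : ℝ) := by
          rw [← Real.rpow_natCast, ← Real.rpow_mul hNp.le]
          norm_num
    rcases ((Icc 1 N).filter (fun n => p ^ 2 ∣ c * n + d)).eq_empty_or_nonempty with h | ⟨n₀, hn₀⟩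
    · rw [h, sum_empty]
      positivity
    · rw [mem_filter] at hn₀
      have h2 := hN p 2 n₀ hpp (by norm_num) le_rfl hpN2
      have h3 : ∑ n ∈ (Icc 1 N).filter (fun n => p ^ 2 ∣ c * n + d), vT T n ≤
          ∑ n ∈ (Icc 1 N).filter (fun n => n % p ^ 2 = n₀ % p ^ 2), vT T n := by
        apply sum_le_sum_of_subset_of_nonneg _ fun n _ _ => vT_nonneg T n
        intro n hn
        rw [mem_filter] at hn ⊢
        refine ⟨hn.1, ?_⟩
        have hcop : Nat.Coprime (p ^ 2) c := by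
          apply Nat.Coprime.pow_left
          rw [hpp.coprime_iff_not_dvd]
          exact Nat.not_dvd_of_pos_of_lt hc hcp
        have h4 : c * n + d ≡ c * n₀ + d [MOD p ^ 2] := by
          have e1 : c * n + d ≡ 0 [MOD p ^ 2] := (Nat.modEq_zero_iff_dvd).2 hn.2
          have e2 : c * n₀ + d ≡ 0 [MOD p ^ 2] := (Nat.modEq_zero_iff_dvd).2 hn₀.2
          exact e1.trans e2.symm
        have h5 : c * n ≡ c * n₀ [MOD p ^ 2] := Nat.ModEq.add_right_cancel' d h4
        exact Nat.ModEq.cancel_left_of_coprime hcop h5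
      refine h3.trans (h2.trans (le_of_eq ?_))
      push_cast
      ring
  have h2 : ∑ p ∈ Q, (1 : ℝ) / (p : ℝ) ^ 2 ≤ 1 / y :=
    sum_inv_sq Q (y := Q.sup id) hy fun p hp => ⟨(hQ p hp).2.1, le_sup (f := id) hp⟩
  calc ∑ p ∈ Q, ∑ n ∈ (Icc 1 N).filter (fun n => p ^ 2 ∣ c * n + d), vT T n
      ≤ ∑ p ∈ Q, C * N * (1 / (p : ℝ) ^ 2) := sum_le_sum h1
    _ = C * N * ∑ p ∈ Q, (1 : ℝ) / (p : ℝ) ^ 2 := by rw [mul_sum]
    _ ≤ C * N * (1 / y) := mul_le_mul_of_nonneg_left h2 (by positivity)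

/-- sums over the `n` for which the form `c n + d` has no prime factor in `Q` -/
theorem partA (k : ℕ) (a b : Fin k → ℤ) (B : ℕ) (hB : 1 ≤ B) (ha : ∀ i, a i ≠ 0)
    (hab : ∀ i, |a i| ≤ B ∧ |b i| ≤ B) (hD0 : disc a b ≠ 0) (c d : ℤ) :
    ∃ C γ : ℝ, 0 < C ∧ 0 < γ ∧ γ ≤ 1 / 4 ∧ ∀ᶠ N : ℕ in atTop, ∀ Q : Finset ℕ,
      (∀ p ∈ Q, p.Prime ∧ k + 1 < p ∧ ¬ (p : ℤ) ∣ disc a b ∧ ¬ (p : ℤ) ∣ c ∧
        (∀ i, ¬ (p : ℤ) ∣ a i * d - c * b i) ∧ (p : ℝ) ≤ (N : ℝ) ^ γ) →
      ∑ n ∈ (Icc 1 N).filter (fun n : ℕ => ∀ p ∈ Q, ¬ (p : ℤ) ∣ c * n + d), vL a b n ≤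
        C * N * Real.exp (-(∑ p ∈ Q, 1 / (p : ℝ))) := by
  classical
  obtain ⟨E, K, hE, hS⟩ := sieve k
  obtain ⟨C1, hC1, hPD⟩ := recip_PD
  obtain ⟨C0, hC0⟩ := Pool.Agent.Helper256.KM.mertens_inv
  set D := AF (disc a b) with hDd
  have hD1 : 1 ≤ D := AF_one hD0
  set c7 : ℝ := k * (C1 + (k + 1)) with hc7
  have hE0 : (0 : ℝ) < (E : ℝ) + 1 := by positivity
  refine ⟨2 * (8 * (E + 1) * D) ^ k * Real.exp c7 + Real.exp C0, 1 / (4 * (E + 1)), by positivity,
    by positivity, ?_, ?_⟩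
  · apply div_le_div_of_nonneg_left (by norm_num) (by norm_num)
    have : (1 : ℝ) ≤ E := by exact_mod_cast hE
    linarith
  filter_upwards [y_props E, ev_log 1, eventually_ge_atTop (2 * B + 3),
    ev_sqrt (2 ^ k * (8 * k + 2 * K)) 1 one_pos (k + 2)] with N hy hL1 hNB hsq Q hQ
  obtain ⟨hy3, hyE, hyL, hyN⟩ := hy
  set y := yN E N with hyd
  set L := Real.log N with hLd
  set V := 2 * B * N with hVd
  have hN1 : 1 ≤ N := by omega
  have hNp : (0 : ℝ) < N := by exact_mod_cast hN1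
  have hNr : (1 : ℝ) ≤ N := by exact_mod_cast hN1
  have hL0 : (0 : ℝ) < L := by linarith
  have hV1 : 1 ≤ V := by
    rw [hVd]
    nlinarith
  have hVR : ((V : ℕ) : ℝ) ≤ N * N := by
    have h1 : V ≤ N * N := by
      rw [hVd]
      exact Nat.mul_le_mul_right _ (by omega)
    exact_mod_cast h1
  have hlogV0 : 0 ≤ Real.log V := Real.log_nonneg (by exact_mod_cast hV1)
  have hlogV : Real.log V ≤ 2 * L := by
    have h1 := Real.log_le_log (by exact_mod_cast hV1 : (0 : ℝ) < V) hVR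
    rw [Real.log_mul hNp.ne' hNp.ne'] at h1
    linarith
  set U := Real.log V ^ k with hU
  have hU0 : 0 ≤ U := pow_nonneg hlogV0 _
  have hUle : U ≤ (2 * L) ^ k := pow_le_pow_left₀ hlogV0 hlogV k
  have hylog : 0 < Real.log y := Real.log_pos (by exact_mod_cast (by omega : 1 < y))
  have hy1 : (1 : ℝ) ≤ y := by exact_mod_cast (by omega : 1 ≤ y)
  have hpy : ∀ p ∈ Q, p ≤ y := by
    intro p hp
    apply Nat.le_floor
    refine (hQ p hp).2.2.2.2.2.trans (Real.rpow_le_rpow_of_exponent_le hNr ?_)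
    apply div_le_div_of_nonneg_left (by norm_num) (by positivity)
    linarith
  have hQPD : Q ⊆ PD k y (disc a b) := by
    intro p hp
    obtain ⟨h1, h2, h3, -⟩ := hQ p hp
    exact mem_filter.2 ⟨mem_Icc.2 ⟨h1.one_lt.le, hpy p hp⟩, h1, h2, h3⟩
  set SQ := ∑ p ∈ Q, 1 / (p : ℝ) with hSQ
  set ES := Real.exp (-SQ) with hES
  have hES0 : 0 < ES := Real.exp_pos _
  -- the sieve
  have hsv := hS N y (by omega) a b c d Q hQPD fun p hp => ⟨(hQ p hp).2.2.2.1, (hQ p hp).2.2.2.2.1⟩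
  set F := (Icc 1 N).filter (fun n : ℕ =>
    (∀ i, ∀ p : ℕ, p.Prime → p ≤ y → ¬ (p : ℤ) ∣ a i * n + b i) ∧ ∀ p ∈ Q, ¬ (p : ℤ) ∣ c * n + d)
    with hF
  -- pointwise bound
  have hVn : ∀ n ∈ Icc 1 N, ∀ i, (a i * n + b i).natAbs ≤ V := by
    intro n hn i
    rw [mem_Icc] at hn
    have h1 : ((a i * n + b i).natAbs : ℤ) ≤ (V : ℤ) := by
      rw [Int.natCast_natAbs, hVd]
      have hn1 : (1 : ℤ) ≤ n := by exact_mod_cast hn.1
      have hn2 : (n : ℤ) ≤ N := by exact_mod_cast hn.2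
      have hB1 : (1 : ℤ) ≤ B := by exact_mod_cast hB
      obtain ⟨h2, h3⟩ := hab i
      calc |a i * (n : ℤ) + b i| ≤ |a i * (n : ℤ)| + |b i| := abs_add_le _ _
        _ = |a i| * n + |b i| := by rw [abs_mul, abs_of_nonneg (by positivity : (0 : ℤ) ≤ n)]
        _ ≤ B * N + B := by
          have := mul_le_mul h2 hn2 (by positivity) (by positivity)
          linarith
        _ ≤ ((2 * B * N : ℕ) : ℤ) := by
          push_cast
          nlinarith
    exact_mod_cast h1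
  have hpt : ∀ n ∈ (Icc 1 N).filter (fun n : ℕ => ∀ p ∈ Q, ¬ (p : ℤ) ∣ c * n + d),
      vL a b n ≤ U * (∑ i, (if (a i * n + b i).natAbs ∈ SP y V then (1 : ℝ) else 0)) +
        U * (if n ∈ F then 1 else 0) := by
    intro n hn
    rw [mem_filter] at hn
    have hle : vL a b n ≤ U := vL_le hV1 (hVn n hn.1)
    have hs0 : ∀ i, (0 : ℝ) ≤ (if (a i * n + b i).natAbs ∈ SP y V then (1 : ℝ) else 0) := by
      intro i
      split_ifs <;> norm_num
    by_cases hF' : n ∈ F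
    · rw [if_pos hF', mul_one]
      have := mul_nonneg hU0 (sum_nonneg fun i (_ : i ∈ univ) => hs0 i)
      linarith
    · rw [if_neg hF', mul_zero, add_zero]
      by_cases hv : vL a b n = 0
      · rw [hv]
        exact mul_nonneg hU0 (sum_nonneg fun i (_ : i ∈ univ) => hs0 i)
      · have hpw : ∀ i, IsPrimePow (a i * n + b i).natAbs := by
          intro i
          have := prod_ne_zero_iff.1 hv i (mem_univ i)
          exact ArithmeticFunction.vonMangoldt_ne_zero_iff.1 this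
        have hex : ∃ i, ∃ p : ℕ, p.Prime ∧ p ≤ y ∧ (p : ℤ) ∣ a i * n + b i := by
          by_contra hcon
          push Not at hcon
          exact hF' (mem_filter.2 ⟨hn.1, fun i p hp hpy => hcon i p hp hpy, hn.2⟩)
        obtain ⟨i, p, hp, hpy', hpd⟩ := hex
        have hmem : (a i * n + b i).natAbs ∈ SP y V :=
          mem_SP (hpw i) (hVn n hn.1 i) hp hpy' (Int.natCast_dvd.1 hpd)
        have h1 : (1 : ℝ) ≤ ∑ i, (if (a i * n + b i).natAbs ∈ SP y V then (1 : ℝ) else 0) := by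
          have := single_le_sum (fun i (_ : i ∈ univ) => hs0 i) (mem_univ i)
          rwa [if_pos hmem] at this
        calc vL a b n ≤ U * 1 := by rw [mul_one]; exact hle
          _ ≤ _ := mul_le_mul_of_nonneg_left h1 hU0
  have hsum : ∑ n ∈ (Icc 1 N).filter (fun n : ℕ => ∀ p ∈ Q, ¬ (p : ℤ) ∣ c * n + d), vL a b n ≤
      U * (k * (2 * (y * Nat.log 2 V))) + U * F.card := by
    refine (sum_le_sum hpt).trans ?_
    rw [sum_add_distrib, ← mul_sum, ← mul_sum]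
    apply add_le_add
    · apply mul_le_mul_of_nonneg_left _ hU0
      rw [sum_comm]
      have h1 : ∀ i : Fin k, ∑ n ∈ (Icc 1 N).filter (fun n : ℕ => ∀ p ∈ Q, ¬ (p : ℤ) ∣ c * n + d),
          (if (a i * n + b i).natAbs ∈ SP y V then (1 : ℝ) else 0) ≤ 2 * (y * Nat.log 2 V) := by
        intro i
        rw [← sum_filter, sum_const, nsmul_eq_mul, mul_one]
        have h2 : (((Icc 1 N).filter (fun n : ℕ => ∀ p ∈ Q, ¬ (p : ℤ) ∣ c * n + d)).filter
            (fun n : ℕ => (a i * n + b i).natAbs ∈ SP y V)).card ≤ 2 * (y * Nat.log 2 V) := by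
          refine (card_le_card ?_).trans ((card_abs_le (b := b i) (ha i) N (SP y V)).trans
            (Nat.mul_le_mul_left _ (SP_card y V)))
          exact filter_subset_filter _ (filter_subset _ _)
        exact_mod_cast h2
      calc _ ≤ ∑ i : Fin k, 2 * ((y : ℝ) * Nat.log 2 V) := sum_le_sum fun i _ => h1 i
        _ = k * (2 * (y * Nat.log 2 V)) := by
          rw [sum_const, card_univ, Fintype.card_fin, nsmul_eq_mul]
    · apply mul_le_mul_of_nonneg_left _ hU0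
      rw [← sum_filter, sum_const, nsmul_eq_mul, mul_one]
      have : (((Icc 1 N).filter (fun n : ℕ => ∀ p ∈ Q, ¬ (p : ℤ) ∣ c * n + d)).filter
          (fun n => n ∈ F)).card ≤ F.card := by
        apply card_le_card
        intro n hn
        exact (mem_filter.1 hn).2
      exact_mod_cast this
  -- numerical bounds
  have hSQle : SQ ≤ Real.log L + C0 := by
    have h1 := (abs_le.1 (hC0 N (by omega))).2
    have h2 : SQ ≤ ∑ p ∈ (Icc 1 N).filter Nat.Prime, (1 : ℝ) / p := by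
      apply sum_le_sum_of_subset_of_nonneg
      · intro p hp
        rw [mem_filter, mem_Icc]
        exact ⟨⟨(hQ p hp).1.one_lt.le, (hpy p hp).trans hyN⟩, (hQ p hp).1⟩
      · intro p _ _
        positivity
    linarith
  have hLES : (N : ℝ) / L ≤ Real.exp C0 * (N * ES) := by
    rw [div_le_iff₀ hL0]
    have h1 : Real.exp (-(Real.log L + C0)) ≤ ES := Real.exp_le_exp.2 (by linarith)
    have h2 : Real.exp (-(Real.log L + C0)) = L⁻¹ * Real.exp (-C0) := by
      rw [neg_add, Real.exp_add, Real.exp_neg (Real.log L), Real.exp_log hL0]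
    rw [h2] at h1
    have h3 : Real.exp C0 * (N * (L⁻¹ * Real.exp (-C0))) * L ≤ Real.exp C0 * (N * ES) * L := by
      gcongr
    refine le_trans (le_of_eq ?_) h3
    have h4 : Real.exp C0 * Real.exp (-C0) = 1 := by rw [← Real.exp_add]; simp
    calc (N : ℝ) = N * 1 * (L⁻¹ * L) := by rw [inv_mul_cancel₀ hL0.ne']; ring
      _ = N * (Real.exp C0 * Real.exp (-C0)) * (L⁻¹ * L) := by rw [h4]
      _ = _ := by ring
  have hyE1 : (1 : ℝ) ≤ (y : ℝ) ^ (E + 1) := one_le_pow₀ hy1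
  have hyy : (y : ℝ) ≤ (y : ℝ) ^ (E + 1) := by
    calc (y : ℝ) = (y : ℝ) ^ 1 := (pow_one _).symm
      _ ≤ (y : ℝ) ^ (E + 1) := pow_le_pow_right₀ hy1 (by omega)
  have hlog2V : (Nat.log 2 V : ℝ) ≤ 4 * L := by
    have := natlog_le (m := V) (by omega)
    linarith
  have hJJ : (Pool.Agent.W41.JJ y : ℝ) + 2 ≤ 2 * y := by
    exact_mod_cast Pool.Agent.W41.JJ_small y hy3
  have p2 : U * (k * (2 * (y * Nat.log 2 V)) +
      K * ((Pool.Agent.W41.JJ y : ℝ) + 2) * (y : ℝ) ^ E) ≤ N / L := by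
    have h1 : (k : ℝ) * (2 * (y * Nat.log 2 V)) ≤ k * (2 * ((y : ℝ) ^ (E + 1) * (4 * L))) := by
      apply mul_le_mul_of_nonneg_left _ (Nat.cast_nonneg _)
      apply mul_le_mul_of_nonneg_left _ (by norm_num)
      exact mul_le_mul hyy hlog2V (Nat.cast_nonneg _) (by positivity)
    have h2 : (K : ℝ) * ((Pool.Agent.W41.JJ y : ℝ) + 2) * (y : ℝ) ^ E ≤ 2 * K * (y : ℝ) ^ (E + 1) := by
      have h3 : (K : ℝ) * ((Pool.Agent.W41.JJ y : ℝ) + 2) ≤ K * (2 * y) :=
        mul_le_mul_of_nonneg_left hJJ (Nat.cast_nonneg _)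
      have h4 := mul_le_mul_of_nonneg_right h3 (show (0 : ℝ) ≤ (y : ℝ) ^ E by positivity)
      rw [pow_succ]
      linarith
    have h3 : (k : ℝ) * (2 * (y * Nat.log 2 V)) +
      K * ((Pool.Agent.W41.JJ y : ℝ) + 2) * (y : ℝ) ^ E ≤
        (8 * k + 2 * K) * L * (y : ℝ) ^ (E + 1) := by
      have h4 : 2 * (K : ℝ) * (y : ℝ) ^ (E + 1) * 1 ≤ 2 * K * (y : ℝ) ^ (E + 1) * L :=
        mul_le_mul_of_nonneg_left hL1 (by positivity)
      nlinarith
    have h4 : (8 * k + 2 * K : ℝ) * L * (y : ℝ) ^ (E + 1) ≤ (8 * k + 2 * K) * L * Real.sqrt N :=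
      mul_le_mul_of_nonneg_left hyE (by positivity)
    have h5 := mul_le_mul hUle (h3.trans h4) (by positivity) (by positivity)
    have h6 : (2 * L) ^ k * ((8 * k + 2 * K) * L * Real.sqrt N) =
        (2 ^ k * (8 * k + 2 * K) * L ^ (k + 1)) * Real.sqrt N := by
      rw [mul_pow, pow_succ]
      ring
    have h7 := mul_le_mul_of_nonneg_right hsq (Real.sqrt_nonneg N)
    have h8 : 1 * Real.sqrt N * Real.sqrt N = N := by
      rw [one_mul, Real.mul_self_sqrt hNp.le]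
    rw [h8] at h7
    rw [h6] at h5
    have h9 : (2 ^ k * (8 * k + 2 * K) * L ^ (k + 1)) * Real.sqrt N ≤ N / L := by
      rw [le_div_iff₀ hL0]
      refine le_trans (le_of_eq ?_) h7
      rw [show k + 2 = (k + 1) + 1 by ring, pow_succ L (k + 1)]
      ring
    linarith
  have q5 := hPD k y (disc a b) hy3 hD0
  set SD := ∑ p ∈ (disc a b).natAbs.primeFactors, (1 : ℝ) / p with hSD
  have q6 : Real.exp SD ≤ D := exp_recip_le _ (Int.natAbs_ne_zero.2 hD0)
  have q7 : Real.exp (-(k * ∑ p ∈ PD k y (disc a b), (1 : ℝ) / p) - SQ) ≤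
      (Real.log y ^ k)⁻¹ * D ^ k * (Real.exp c7 * ES) := by
    have h1 : -((k : ℝ) * ∑ p ∈ PD k y (disc a b), (1 : ℝ) / p) - SQ ≤
        -(k * Real.log (Real.log y)) + k * SD + (c7 + -SQ) := by
      have h2 := mul_le_mul_of_nonneg_left q5 (Nat.cast_nonneg (α := ℝ) k)
      rw [hc7]
      nlinarith
    refine (Real.exp_le_exp.2 h1).trans ?_
    rw [Real.exp_add, Real.exp_add, Real.exp_add c7]
    have h2 : Real.exp (-(k * Real.log (Real.log y))) = (Real.log y ^ k)⁻¹ := by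
      rw [Real.exp_neg, mul_comm, Real.exp_mul, Real.exp_log hylog, Real.rpow_natCast]
    have h3 : Real.exp (k * SD) ≤ D ^ k := by
      rw [mul_comm, Real.exp_mul, Real.rpow_natCast]
      exact pow_le_pow_left₀ (Real.exp_pos _).le q6 k
    rw [h2]
    gcongr
  have q8 : U ≤ (8 * (E + 1)) ^ k * Real.log y ^ k := by
    refine hUle.trans ?_
    rw [← mul_pow]
    apply pow_le_pow_left₀ (by positivity)
    linarith
  have p3 : U * (2 * (N * Real.exp (-(k * ∑ p ∈ PD k y (disc a b), (1 : ℝ) / p) - SQ))) ≤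
        2 * (8 * (E + 1) * D) ^ k * Real.exp c7 * (N * ES) := by
    have h1 : (N : ℝ) * Real.exp (-(k * ∑ p ∈ PD k y (disc a b), (1 : ℝ) / p) - SQ) ≤
        N * ((Real.log y ^ k)⁻¹ * D ^ k * (Real.exp c7 * ES)) :=
      mul_le_mul_of_nonneg_left q7 hNp.le
    have h2 := mul_le_mul q8 (mul_le_mul_of_nonneg_left h1 (show (0 : ℝ) ≤ 2 by norm_num))
      (by positivity) (by positivity)
    refine h2.trans (le_of_eq ?_)
    have h3 : Real.log y ^ k ≠ 0 := by positivity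
    rw [mul_pow (8 * ((E : ℝ) + 1)) D k]
    field_simp
  calc _ ≤ U * (k * (2 * (y * Nat.log 2 V))) + U * F.card := hsum
    _ ≤ U * (k * (2 * (y * Nat.log 2 V))) + U *
        (2 * (N * Real.exp (-(k * ∑ p ∈ PD k y (disc a b), (1 : ℝ) / p) - SQ)) +
          K * ((Pool.Agent.W41.JJ y : ℝ) + 2) * (y : ℝ) ^ E) := by
        gcongr
    _ = U * (k * (2 * (y * Nat.log 2 V)) + K * ((Pool.Agent.W41.JJ y : ℝ) + 2) * (y : ℝ) ^ E) +
        U * (2 * (N * Real.exp (-(k * ∑ p ∈ PD k y (disc a b), (1 : ℝ) / p) - SQ))) := by ring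
    _ ≤ Real.exp C0 * (N * ES) + 2 * (8 * (E + 1) * D) ^ k * Real.exp c7 * (N * ES) :=
        add_le_add (p2.trans hLES) p3
    _ = (2 * (8 * (E + 1) * D) ^ k * Real.exp c7 + Real.exp C0) * N * ES := by ring

theorem not_dvd_disc {k : ℕ} {a b : Fin k → ℤ} {p : ℕ} (hp : p.Prime)
    (ha : ∀ i, ¬ (p : ℤ) ∣ a i) (hab : ∀ i j, i ≠ j → ¬ (p : ℤ) ∣ a i * b j - a j * b i) :
    ¬ (p : ℤ) ∣ disc a b := by
  have hpI : Prime (p : ℤ) := Nat.prime_iff_prime_int.1 hp
  intro h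
  unfold disc at h
  rcases hpI.dvd_or_dvd h with h1 | h1
  · obtain ⟨i, -, hi⟩ := hpI.exists_mem_finset_dvd h1
    exact ha i hi
  · obtain ⟨i, -, hi⟩ := hpI.exists_mem_finset_dvd h1
    obtain ⟨j, hj, hij⟩ := hpI.exists_mem_finset_dvd hi
    exact hab i j (mem_filter.1 hj).2.ne hij

theorem not_dvd_small {p : ℕ} {x : ℤ} (hx : x ≠ 0) (h : |x| < p) : ¬ (p : ℤ) ∣ x :=
  fun h1 => hx (Int.eq_zero_of_abs_lt_dvd h1 h)

theorem det_small {A : ℕ} {a b c d : ℤ} (ha : 0 ≤ a) (ha' : a ≤ A) (hb : 0 ≤ b) (hb' : b ≤ A)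
    (hc : 0 ≤ c) (hc' : c ≤ A) (hd : 0 ≤ d) (hd' : d ≤ A) : |a * d - c * b| ≤ (A : ℤ) * A := by
  have h1 : 0 ≤ a * d := mul_nonneg ha hd
  have h2 : 0 ≤ c * b := mul_nonneg hc hb
  have h3 : a * d ≤ A * A := mul_le_mul ha' hd' hd (by omega)
  have h4 : c * b ≤ A * A := mul_le_mul hc' hb' hb (by omega)
  rw [abs_le]
  constructor <;> linarith

theorem t_EVN (hCLS : S_CLS) : S_EVN := by
  intro A T U hTU hdis hU
  obtain ⟨u, hu⟩ := hU
  have hT : T = ∅ ∨ Adm A A T := by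
    rcases T.eq_empty_or_nonempty with h | h
    · exact Or.inl h
    · exact Or.inr ⟨h, fun q hq => hTU.2.1 q (mem_union_left _ hq), fun q hq q' hq' =>
        hTU.2.2 q (mem_union_left _ hq) q' (mem_union_left _ hq')⟩
  obtain ⟨hu1, hu2, hu3⟩ := hTU.2.1 u (mem_union_right _ hu)
  have hA1 : 1 ≤ A := hu1.trans hu2
  have ha : ∀ i, aT T i ≠ 0 := fun i => by
    have := (adm_mem hT i).1
    omega
  have hD0 : disc (aT T) (bT T) ≠ 0 := disc_ne ha fun i j hij => adm_det hT hij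
  obtain ⟨C₁, hC₁, hB⟩ := partB hCLS A T hT u.1 u.2 hu1
  obtain ⟨C₂, γ, hC₂, hγ, hγ4, hAA⟩ := partA T.card (aT T) (bT T) A hA1 ha (fun i => by
    obtain ⟨h1, h2, h3, h4⟩ := adm_mem hT i
    rw [abs_of_nonneg (by omega), abs_of_nonneg h3]
    exact ⟨h2, h4⟩) hD0 u.1 u.2
  refine ⟨C₁ + C₂, γ, by positivity, hγ, ?_⟩
  filter_upwards [hB, hAA, eventually_ge_atTop 1] with N hB hAA hN1 y Q hy hQ
  have hNr : (1 : ℝ) ≤ N := by exact_mod_cast hN1
  have hNp : (0 : ℝ) < N := by linarith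
  have hcard : T.card ≤ A * (A + 1) := by
    have h1 : T ⊆ Icc 1 A ×ˢ range (A + 1) := by
      intro q hq
      obtain ⟨h1, h2, h3⟩ := hTU.2.1 q (mem_union_left _ hq)
      rw [mem_product, mem_Icc, mem_range]
      exact ⟨⟨h1, h2⟩, by omega⟩
    have h2 := card_le_card h1
    rwa [card_product, Nat.card_Icc, card_range, Nat.add_sub_cancel] at h2
  have hAA' : A * A < 2 * A ^ 2 + 2 ∧ A < 2 * A ^ 2 + 2 ∧ A * (A + 1) + 1 < 2 * A ^ 2 + 2 := by
    refine ⟨by nlinarith, by nlinarith, by nlinarith⟩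
  have hpQ : ∀ p ∈ Q, A * A < p ∧ A < p ∧ T.card + 1 < p := by
    intro p hp
    have := (hQ p hp).2.1
    omega
  have hF1 : ∀ p ∈ Q, ¬ (p : ℤ) ∣ (u.1 : ℤ) := by
    intro p hp h
    exact Nat.not_dvd_of_pos_of_lt hu1 (by have := (hpQ p hp).2.1; omega)
      (Int.natCast_dvd_natCast.1 h)
  have hF2 : ∀ p ∈ Q, ∀ i, ¬ (p : ℤ) ∣ aT T i * (u.2 : ℤ) - (u.1 : ℤ) * bT T i := by
    intro p hp i
    obtain ⟨h1, h2, h3, h4⟩ := adm_mem hT i
    apply not_dvd_small
    · have hmem := (T.equivFin.symm i).2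
      have hne : (T.equivFin.symm i).1 ≠ u := by
        intro h
        exact (disjoint_left.1 hdis) (h ▸ hmem) hu
      have h5 := hTU.2.2 _ (mem_union_left _ hmem) u (mem_union_right _ hu) hne
      intro h6
      apply h5
      unfold aT bT at h6
      have : ((T.equivFin.symm i).1.1 * u.2 : ℤ) = u.1 * (T.equivFin.symm i).1.2 := by linarith
      exact_mod_cast this
    · have h5 := det_small (by omega : 0 ≤ aT T i) h2 h3 h4 (Int.natCast_nonneg u.1)
        (by exact_mod_cast hu2) (Int.natCast_nonneg u.2) (by exact_mod_cast hu3)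
      have h6 : ((A * A : ℕ) : ℤ) < p := by exact_mod_cast (hpQ p hp).1
      push_cast at h6
      linarith
  have hF3 : ∀ p ∈ Q, ¬ (p : ℤ) ∣ disc (aT T) (bT T) := by
    intro p hp
    apply not_dvd_disc (hQ p hp).1
    · intro i
      obtain ⟨h1, h2, h3, h4⟩ := adm_mem hT i
      apply not_dvd_small (ha i)
      rw [abs_of_nonneg (by omega)]
      have : ((A : ℕ) : ℤ) < p := by exact_mod_cast (hpQ p hp).2.1
      linarith
    · intro i j hij
      obtain ⟨h1, h2, h3, h4⟩ := adm_mem hT i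
      obtain ⟨g1, g2, g3, g4⟩ := adm_mem hT j
      apply not_dvd_small (adm_det hT hij)
      have h5 := det_small (by omega : 0 ≤ aT T i) h2 h3 h4 (by omega : 0 ≤ aT T j) g2 g3 g4
      have h6 : ((A * A : ℕ) : ℤ) < p := by exact_mod_cast (hpQ p hp).1
      push_cast at h6
      linarith
  -- the two sums
  have hB' := hB y Q (by omega) fun p hp => ⟨(hQ p hp).1, (hQ p hp).2.1,
    by have := (hpQ p hp).2.1; omega,
    (hQ p hp).2.2.trans (Real.rpow_le_rpow_of_exponent_le hNr hγ4)⟩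
  have hA' := hAA Q fun p hp => ⟨(hQ p hp).1, (hpQ p hp).2.2, hF3 p hp, hF1 p hp, hF2 p hp,
    (hQ p hp).2.2⟩
  have hpt : ∀ n ∈ (Icc 1 N).filter (fun n => ∀ p ∈ Q,
      Even ((∏ q ∈ U, (q.1 * n + q.2)).factorization p)), vT T n ≤
      (if (∀ p ∈ Q, ¬ (p : ℤ) ∣ (u.1 : ℤ) * n + u.2) then vL (aT T) (bT T) n else 0) +
        ∑ p ∈ Q, (if p ^ 2 ∣ u.1 * n + u.2 then vT T n else 0) := by
    intro n hn
    rw [mem_filter, mem_Icc] at hn
    have hv := vT_nonneg T n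
    have hs : ∀ p ∈ Q, (0 : ℝ) ≤ (if p ^ 2 ∣ u.1 * n + u.2 then vT T n else 0) := by
      intro p _
      split_ifs
      · exact hv
      · exact le_rfl
    by_cases h : ∀ p ∈ Q, ¬ (p : ℤ) ∣ (u.1 : ℤ) * n + u.2
    · rw [if_pos h, ← vT_eq]
      have := sum_nonneg hs
      linarith
    · rw [if_neg h, zero_add]
      push Not at h
      obtain ⟨p, hp, hpd⟩ := h
      have hpd' : p ∣ u.1 * n + u.2 := by exact_mod_cast hpd
      have hpp := (hQ p hp).1
      have hpos : ∀ q ∈ U, q.1 * n + q.2 ≠ 0 := by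
        intro q hq
        have h1 := (hTU.2.1 q (mem_union_right _ hq)).1
        have : 1 ≤ q.1 * n := Nat.mul_le_mul h1 hn.1.1
        omega
      have hfac : (∏ q ∈ U, (q.1 * n + q.2)).factorization p = (u.1 * n + u.2).factorization p := by
        rw [Nat.factorization_prod hpos, Finsupp.finset_sum_apply, ← add_sum_erase _ _ hu]
        rw [sum_eq_zero, add_zero]
        intro q hq
        rw [mem_erase] at hq
        apply Nat.factorization_eq_zero_of_not_dvd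
        intro hdq
        have h1 : (p : ℤ) ∣ (q.1 : ℤ) * n + q.2 := by exact_mod_cast hdq
        have h2 : (p : ℤ) ∣ (q.1 : ℤ) * u.2 - (u.1 : ℤ) * q.2 := by
          have h3 := dvd_sub (Dvd.dvd.mul_left hpd (q.1 : ℤ)) (Dvd.dvd.mul_left h1 (u.1 : ℤ))
          have e : (q.1 : ℤ) * ((u.1 : ℤ) * n + u.2) - u.1 * ((q.1 : ℤ) * n + q.2) =
            (q.1 : ℤ) * u.2 - (u.1 : ℤ) * q.2 := by ring
          rwa [e] at h3
        obtain ⟨g1, g2, g3⟩ := hTU.2.1 q (mem_union_right _ hq.2)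
        refine not_dvd_small ?_ ?_ h2
        · have h5 := hTU.2.2 q (mem_union_right _ hq.2) u (mem_union_right _ hu) hq.1
          intro h6
          apply h5
          have : (q.1 * u.2 : ℤ) = u.1 * q.2 := by linarith
          exact_mod_cast this
        · have h5 := det_small (A := A) (Int.natCast_nonneg q.1) (by exact_mod_cast g2)
            (Int.natCast_nonneg q.2) (by exact_mod_cast g3) (Int.natCast_nonneg u.1)
            (by exact_mod_cast hu2) (Int.natCast_nonneg u.2) (by exact_mod_cast hu3)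
          have h6 : ((A * A : ℕ) : ℤ) < p := by exact_mod_cast (hpQ p hp).1
          push_cast at h6
          linarith
      have hev := hn.2 p hp
      rw [hfac] at hev
      have hne := hpos u hu
      have h1 : 1 ≤ (u.1 * n + u.2).factorization p := (hpp.dvd_iff_one_le_factorization hne).1 hpd'
      have h2 : 2 ≤ (u.1 * n + u.2).factorization p := by
        obtain ⟨t, ht⟩ := hev
        omega
      have h3 : p ^ 2 ∣ u.1 * n + u.2 := (hpp.pow_dvd_iff_le_factorization hne).2 h2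
      have h4 := single_le_sum hs hp
      rwa [if_pos h3] at h4
  have h1 : ∑ n ∈ (Icc 1 N).filter (fun n => ∀ p ∈ Q,
      Even ((∏ q ∈ U, (q.1 * n + q.2)).factorization p)), vT T n ≤
      ∑ n ∈ (Icc 1 N).filter (fun n : ℕ => ∀ p ∈ Q, ¬ (p : ℤ) ∣ (u.1 : ℤ) * n + u.2),
        vL (aT T) (bT T) n +
      ∑ p ∈ Q, ∑ n ∈ (Icc 1 N).filter (fun n => p ^ 2 ∣ u.1 * n + u.2), vT T n := by
    refine (sum_le_sum hpt).trans ?_
    rw [sum_add_distrib]
    have hv0 : ∀ n, 0 ≤ vL (aT T) (bT T) n := fun n => vL_nonneg _ _ _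
    apply add_le_add
    · rw [sum_filter (p := fun n : ℕ => ∀ p ∈ Q, ¬ (p : ℤ) ∣ (u.1 : ℤ) * n + u.2)]
      apply sum_le_sum_of_subset_of_nonneg (filter_subset _ _)
      intro n _ _
      split_ifs
      · exact hv0 n
      · exact le_rfl
    · rw [sum_comm]
      apply sum_le_sum
      intro p _
      rw [sum_filter (p := fun n => p ^ 2 ∣ u.1 * n + u.2)]
      apply sum_le_sum_of_subset_of_nonneg (filter_subset _ _)
      intro n _ _
      split_ifs
      · exact vT_nonneg T n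
      · exact le_rfl
  have hES : 0 < Real.exp (-(∑ p ∈ Q, 1 / (p : ℝ))) := Real.exp_pos _
  have hy0 : (0 : ℝ) ≤ 1 / y := by positivity
  calc _ ≤ C₂ * N * Real.exp (-(∑ p ∈ Q, 1 / (p : ℝ))) + C₁ * N * (1 / y) :=
        h1.trans (add_le_add hA' hB')
    _ ≤ (C₁ + C₂) * N * (Real.exp (-(∑ p ∈ Q, 1 / (p : ℝ))) + 1 / y) := by
      have h2 : 0 ≤ C₁ * N * Real.exp (-(∑ p ∈ Q, 1 / (p : ℝ))) := by positivity
      have h3 : 0 ≤ C₂ * N * (1 / (y : ℝ)) := by positivity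
      nlinarith

end Pool.Agent.Q177.EL
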